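import Pool.Agent.MP_2b3591_co.Final

set_option autoImplicit false

/-- There is an absolute constant `c > 1` (namely `11/10`) with `m(k,k-1) > c^k` for all `k ≥ 3`. -/
theorem Pool.Agent.Results.MP_2b3591_co.Exponential.result :
    ∃ c : ℝ, 1 < c ∧ ∀ k : ℕ, 3 ≤ k → c ^ k < (Pool.Agent.MP_2b3591_co.m k (k - 1) : ℝ) := by
  refine ⟨11 / 10, by norm_num, fun k hk => ?_⟩
  obtain ⟨v, ⟨n, F, hF⟩, hv⟩ := Pool.Agent.MP_2b3591_co.exists_has k hk
  have hv1 : 1 ≤ v := by
    by_contra hcon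
    have : v = 0 := by omega
    rw [this] at hv
    have : (0 : ℝ) < (11 / 10) ^ k := by positivity
    push_cast at hv
    linarith
  have := Pool.Agent.MP_2b3591_co.m_ge_of_good k v (by omega) hv1 F hF
  calc ((11 / 10 : ℝ)) ^ k < v := hv
    _ ≤ _ := by exact_mod_cast this
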